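import Pool.Agent.helper32.PN.Spec

/-!
# Project PN (MP_405bd9_al), row PTM
-/

set_option autoImplicit false

namespace Pool.Agent.PN

open Module Polynomial Pool.Agent.helper27.PC

noncomputable section

theorem PTM : PTM_stmt := by
  intro t K a T l ha hl
  have h1 : l ∈ T ∧ up a l ∉ T := by
    simpa [addable] using hl
  obtain ⟨hlT, hup⟩ := h1
  set f : Lab → ℤ := fun l => ((l.2 : ℤ) ^ 2 + l.2 - 2 * K * l.2 + 2 * tb t l.1 * l.2) with hf
  have e1 : pt t K (move a T l) = f (up a l) + ∑ x ∈ T.erase l, f x := by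
    unfold pt move
    rw [Finset.sum_insert (fun h => hup (Finset.mem_of_mem_erase h))]
  have e2 : pt t K T = f l + ∑ x ∈ T.erase l, f x := by
    unfold pt
    exact (Finset.add_sum_erase T f hlT).symm
  rw [e1, e2, hf]
  simp only [up]
  push_cast
  ring

end

end Pool.Agent.PN
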